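import Pool.Agent.Helper91.TM.V
import Pool.Agent.Helper62.C75.LBM

/-!
Row M3 of MP_c75db0 (star frame) over the machines `Mch`: models of the letters and of the blocks
(copy of the real side of `Helper62.LBM`, the kernel functions are those of `Helper62.LBM`).
-/

set_option autoImplicit false
noncomputable section
namespace Pool.Agent.Helper91.TMK.LBM

open Pool.Agent.Helper90.KMT (PT)
open Pool.Agent.Helper90.KMO (UU UU_pos UUc_ne andB_t)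
open Pool.Agent.Helper86.C75 (Z)
open Pool.Agent.Helper86.CX (Cx andB)
open Pool.Agent.Helper86.CT (Alg Mo er mk cst addM subM mulM conjM invM invOK)
open Pool.Agent.Helper17.K9 (V9)
open Pool.Agent.Helper62.TVM (cstC zeM negM hfM re2M nsqM dot3 V3m C3 C9 cstW cstV addW subW negW
  smW cjW jW hdW dtW addV subV negV smV hfV hdV mulV ctV trV ouV oV dlV drV dgV adV sbV mvV)
open Pool.Agent.Helper62.LBM (onM powM evM erM rotM refM sDmM ncM nsM wdM srM qrM nRM nRdM nRrM RH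
  stRH rhM rhOK BMD runM recM sDm_even sDm_odd)
open Pool.Agent.Helper6.MONO.W2 (ep ev sDm nc ns nsd nR nRd nRr rn h1 h2)

/-! ### the real side -/

section

variable {α : Type} {D : ℕ} {lf : Mch α} {A : Alg α} {t : ℕ → ℝ}

theorem TOK_on (hA : AOK D lf A) (hP : PT D t) : TOK D lf t 1 (onM A) :=
  TOK.cst' hA hP (by unfold UU; norm_num)

theorem TOK_pow (hA : AOK D lf A) (hP : PT D t) {e : ℂ} {E : Mo α} (hE : TOK D lf t e E) :
    ∀ n : ℕ, TOK D lf t (e ^ n) (powM A E n)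
  | 0 => tc (TOK_on hA hP) (pow_zero e).symm
  | n + 1 => tc ((TOK_pow hA hP hE n).mul hA hP hE) (pow_succ e n).symm

theorem TOK_ev (hA : AOK D lf A) (hP : PT D t) {φ : ℝ} {E : Mo α} (hE : TOK D lf t (ep φ) E)
    (a : Bool) (k : ℕ) : TOK D lf t (ev φ a k) (evM A E a k) := by
  cases a with
  | false => exact TOK_pow hA hP hE (k - 1)
  | true =>
    refine tc ((TOK_pow hA hP hE (k + 1)).conj hA) ?_
    show star (ep φ ^ (k + 1)) = star (ep φ) ^ (k + 1)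
    rw [star_pow]

theorem TOK_er (hA : AOK D lf A) (hP : PT D t) {φ : ℝ} {E : Mo α} (hE : TOK D lf t (ep φ) E)
    (a : Bool) (k : ℕ) :
    TOK D lf t ((if a then star (ep φ) else ep φ) ^ k) (erM A E a k) := by
  cases a with
  | false => exact TOK_pow hA hP hE k
  | true =>
    refine tc ((TOK_pow hA hP hE k).conj hA) ?_
    show star (ep φ ^ k) = star (ep φ) ^ k
    rw [star_pow]

/-- a rotation -/
theorem TV_rot (hA : AOK D lf A) (hP : PT D t) {P : ℂ} {F : Mo α} (h : TOK D lf t P F) :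
    TV D lf t !![P, 0, 0; 0, star P, 0; 0, 0, 1] (rotM A F) :=
  ⟨h, TOK_ze hA hP, TOK_ze hA hP, TOK_ze hA hP, h.conj hA, TOK_ze hA hP, TOK_ze hA hP,
    TOK_ze hA hP, TOK_on hA hP⟩

/-- a reflection -/
theorem TV_ref (hA : AOK D lf A) (hP : PT D t) {P : ℂ} {F : Mo α} (h : TOK D lf t P F) :
    TV D lf t !![0, -star P, 0; -P, 0, 0; 0, 0, 1] (refM A F) :=
  ⟨TOK_ze hA hP, TOK_neg hA hP (h.conj hA), TOK_ze hA hP, TOK_neg hA hP h, TOK_ze hA hP,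
    TOK_ze hA hP, TOK_ze hA hP, TOK_ze hA hP, TOK_on hA hP⟩

/-- THE MATRIX OF AN ELEMENT -/
theorem TV_sDm (hA : AOK D lf A) (hP : PT D t) {φ : ℝ} {E : Mo α} (hE : TOK D lf t (ep φ) E)
    (a : Bool) (k : ℕ) : TV D lf t (sDm φ a k) (sDmM A E a k) := by
  unfold sDmM
  cases hb : Nat.beq (Nat.mod k (nat_lit 2)) (nat_lit 0) with
  | true =>
    have hk : k % 2 = 0 := Nat.eq_of_beq_eq_true hb
    rw [sDm_even φ a hk]
    exact TV_rot hA hP (TOK_er hA hP hE a k)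
  | false =>
    have hk : k % 2 = 1 := by
      have h2 : ¬ k % 2 = 0 := fun h => by
        have : Nat.beq (Nat.mod k (nat_lit 2)) (nat_lit 0) = true := by
          show Nat.beq (k % 2) 0 = true
          rw [h]
          rfl
        rw [this] at hb
        cases hb
      omega
    rw [sDm_odd φ a hk]
    exact TV_ref hA hP (TOK_ev hA hP hE a k)

section letter

variable {φ : ℝ} {a : Bool} {k : ℕ} {P C Cd : Mo α} {v vd : Fin 3 → ℂ} {V Vd : V3m α}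

theorem TOK_nc (hA : AOK D lf A) (hP : PT D t) (hE : TOK D lf t (ev φ a k) P)
    (hv : TW D lf t v V) : TOK D lf t (nc φ v a k) (ncM A P V) :=
  hv.a.add hA (hv.b.mul hA hP (hE.conj hA))

theorem TW_ns (hA : AOK D lf A) (hP : PT D t) (hE : TOK D lf t (ev φ a k) P)
    (hc : TOK D lf t (nc φ v a k) C) : TW D lf t (ns φ v a k) (nsM A P C) := by
  refine ⟨tc hc ?_, tc (hc.mul hA hP hE) ?_, tc (TOK_ze hA hP) ?_⟩
  · show nc φ v a k = nc φ v a k * 1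
    rw [mul_one]
  · rfl
  · show (0 : ℂ) = nc φ v a k * 0
    rw [mul_zero]

theorem TW_nsd (hA : AOK D lf A) (hP : PT D t) (hE : TOK D lf t (ev φ a k) P)
    (hc : TOK D lf t (nc φ vd a k) Cd) : TW D lf t (nsd φ vd a k) (nsM A P Cd) :=
  TW_ns hA hP hE hc

theorem TOK_w (hA : AOK D lf A) (hP : PT D t) (hc : TOK D lf t (nc φ v a k) C) :
    TOK D lf t ((‖nc φ v a k‖ ^ 2 : ℝ) : ℂ) (nsqM A C) := TOK_nsq hA hP hc

theorem TOK_wd (hA : AOK D lf A) (hP : PT D t) (hc : TOK D lf t (nc φ v a k) C)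
    (hd : TOK D lf t (nc φ vd a k) Cd) :
    TOK D lf t ((2 * (nc φ vd a k * star (nc φ v a k)).re : ℝ) : ℂ) (wdM A C Cd) :=
  TOK_re2 hA (hd.mul hA hP (hc.conj hA))

end letter

/-! ### runs -/

variable {w wd ρ g1 g2 : ℝ} {W Wd R G1 G2 : Mo α} {s sd v vd : Fin 3 → ℂ} {S Sd V Vd : V3m α}

theorem TW_sr (hA : AOK D lf A) (hP : PT D t) (hr : TOK D lf t (ρ : ℂ) R) (hs : TW D lf t s S)
    (hv : TW D lf t v V) : TW D lf t (s - (ρ : ℂ) • v) (srM A R S V) :=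
  hs.sub hA (hv.smul hA hP hr)

theorem TOK_qr (hA : AOK D lf A) (hP : PT D t) (hw : TOK D lf t (w : ℂ) W)
    (hr : TOK D lf t (ρ : ℂ) R) : TOK D lf t ((w + ρ ^ 2 - w * ρ : ℝ) : ℂ) (qrM A W R) := by
  refine tc ((hw.add hA (hr.mul hA hP hr)).sub hA (hw.mul hA hP hr)) ?_
  push_cast
  ring

theorem TV_nR (hA : AOK D lf A) (hP : PT D t) (hw : TOK D lf t (w : ℂ) W)
    (hr : TOK D lf t (ρ : ℂ) R) {X : V3m α} (hx : TW D lf t (s - (ρ : ℂ) • v) X) :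
    TV D lf t (nR w ρ s v) (nRM A W R X) :=
  (hx.o hA hP hx).sb hA (TOK_qr hA hP hw hr)

theorem TV_nRd (hA : AOK D lf A) (hP : PT D t) (hw : TOK D lf t (wd : ℂ) Wd)
    (hr : TOK D lf t (ρ : ℂ) R) {X Xd : V3m α} (hx : TW D lf t (s - (ρ : ℂ) • v) X)
    (hxd : TW D lf t (sd - (ρ : ℂ) • vd) Xd) :
    TV D lf t (nRd wd ρ s sd v vd) (nRdM A Wd R X Xd) := by
  have h1 := ((hxd.o hA hP hx).add hA (hx.o hA hP hxd)).sb hA
    (tc (hw.sub hA (hw.mul hA hP hr)) (by push_cast; rfl :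
      (wd : ℂ) - wd * ρ = ((wd - wd * ρ : ℝ) : ℂ)))
  exact h1

theorem TV_nRr (hA : AOK D lf A) (hP : PT D t) (hw : TOK D lf t (w : ℂ) W)
    (hr : TOK D lf t (ρ : ℂ) R) {X : V3m α} (hx : TW D lf t (s - (ρ : ℂ) • v) X)
    (hv : TW D lf t v V) : TV D lf t (nRr w ρ s v) (nRrM A W R X V) := by
  have h1 := ((hv.o hA hP hx).add hA (hx.o hA hP hv)).ad hA
    (tc ((hr.add hA hr).sub hA hw) (by push_cast; ring :
      (ρ : ℂ) + ρ - w = ((2 * ρ - w : ℝ) : ℂ)))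
  exact h1

/-- THE RECESSION DIRECTION -/
theorem TV_rec (hA : AOK D lf A) (hP : PT D t) (hw : TOK D lf t (w : ℂ) W)
    (hwd : TOK D lf t (wd : ℂ) Wd) (hr : TOK D lf t (ρ : ℂ) R) (h1 : TOK D lf t (g1 : ℂ) G1)
    (h2 : TOK D lf t (g2 : ℂ) G2) {X : V3m α} (hx : TW D lf t (s - (ρ : ℂ) • v) X)
    (hv : TW D lf t v V) :
    TV D lf t ((wd : ℂ) • ((g1 : ℂ) • nR w ρ s v + (g2 : ℂ) • nRr w ρ s v))
      (recM A W Wd R G1 G2 X V) :=
  TV.smul hA hP hwd ((TV.smul hA hP h1 (TV_nR hA hP hw hr hx)).add hA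
    (TV.smul hA hP h2 (TV_nRr hA hP hw hr hx hv)))

/-- A RUN: `M` and `D` -/
theorem TV_run (hA : AOK D lf A) (hP : PT D t) (hw : TOK D lf t (w : ℂ) W)
    (hwd : TOK D lf t (wd : ℂ) Wd) (hr : TOK D lf t (ρ : ℂ) R) (h1 : TOK D lf t (g1 : ℂ) G1)
    (h2 : TOK D lf t (g2 : ℂ) G2) {X Xd : V3m α} (hx : TW D lf t (s - (ρ : ℂ) • v) X)
    (hxd : TW D lf t (sd - (ρ : ℂ) • vd) Xd) (hv : TW D lf t v V) :
    TV D lf t (nR w ρ s v) (runM A W Wd R G1 G2 X Xd V).M ∧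
    TV D lf t (nRd wd ρ s sd v vd + (wd : ℂ) • ((g1 : ℂ) • nR w ρ s v + (g2 : ℂ) • nRr w ρ s v))
      (runM A W Wd R G1 G2 X Xd V).D :=
  ⟨TV_nR hA hP hw hr hx, (TV_nRd hA hP hwd hr hx hxd).add hA
    (TV_rec hA hP hw hwd hr h1 h2 hx hv)⟩

/-! ### the numbers `ρ_n`, `h1`, `h2` -/

/-- the model of the triple at `n` -/
structure TRH (D : ℕ) (lf : Mch α) (t : ℕ → ℝ) (w : ℝ) (n : ℕ) (x : RH α) : Prop where
  r : TOK D lf t ((rn w n : ℝ) : ℂ) x.r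
  h : TOK D lf t ((h1 w n : ℝ) : ℂ) x.h
  g : TOK D lf t ((h2 w n : ℝ) : ℂ) x.g

theorem TRH_step (hA : AOK D lf A) (hP : PT D t) (hw : TOK D lf t (w : ℂ) W) {I : Mo α}
    (hi : TOK D lf t (w : ℂ)⁻¹ I) {n : ℕ} {x : RH α} (hx : TRH D lf t w (n + 1) x)
    (hok : invOK A (subM A W x.r) = true) :
    TRH D lf t w (n + 2) (stRH A W I (invM A (subM A W x.r)) x) := by
  obtain ⟨hd, hne⟩ := TOK.inv hA hP (hw.sub hA hx.r) hok
  set d : ℂ := ((w : ℂ) - (rn w (n + 1) : ℝ))⁻¹ with hdd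
  refine ⟨tc (hw.mul hA hP hd) ?_, tc ((hx.h.add hA ((((TOK_on hA hP).add hA hx.g).add hA
    ((TOK_on hA hP).add hA hx.g)).mul hA hP hd)).sub hA hi) ?_,
    tc (((hx.r.add hA (hw.mul hA hP hx.g)).mul hA hP hd).mul hA hP hd) ?_⟩
  · show (w : ℂ) * d = ((w / (w - rn w (n + 1)) : ℝ) : ℂ)
    rw [hdd]
    push_cast
    rw [div_eq_mul_inv]
  · show ((h1 w (n + 1) : ℝ) : ℂ) + (1 + ((h2 w (n + 1) : ℝ) : ℂ) + (1 + ((h2 w (n + 1) : ℝ) : ℂ)))
      * d - (w : ℂ)⁻¹ = ((h1 w (n + 1) + 2 * (1 + h2 w (n + 1)) / (w - rn w (n + 1)) - 1 / w : ℝ) : ℂ)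
    rw [hdd]
    push_cast
    rw [div_eq_mul_inv, one_div]
    ring
  · show (((rn w (n + 1) : ℝ) : ℂ) + (w : ℂ) * ((h2 w (n + 1) : ℝ) : ℂ)) * d * d =
      (((rn w (n + 1) + w * h2 w (n + 1)) / (w - rn w (n + 1)) ^ 2 : ℝ) : ℂ)
    rw [hdd]
    push_cast
    rw [div_eq_mul_inv, ← inv_pow]
    ring

/-- THE NUMBERS OF A RUN OF LENGTH `n + 1` -/
theorem TRH_all (hA : AOK D lf A) (hP : PT D t) (hw : TOK D lf t (w : ℂ) W) {I : Mo α}
    (hi : TOK D lf t (w : ℂ)⁻¹ I) : ∀ n : ℕ, rhOK A W I n = true →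
      TRH D lf t w (n + 1) (rhM A W I n)
  | 0, _ => by
    refine ⟨tc (TOK_ze hA hP) ?_, tc (TOK_neg hA hP hi) ?_, tc (TOK_ze hA hP) ?_⟩
    · show (0 : ℂ) = (((0 : ℝ)) : ℂ)
      norm_num
    · show -(w : ℂ)⁻¹ = ((-(1 / w) : ℝ) : ℂ)
      push_cast
      rw [one_div]
    · show (0 : ℂ) = (((0 : ℝ)) : ℂ)
      norm_num
  | n + 1, h => by
    obtain ⟨ha, hb⟩ := andB_t (show andB (invOK A (subM A W (rhM A W I n).r)) (rhOK A W I n) = true
      from h)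
    exact TRH_step hA hP hw hi (TRH_all hA hP hw hi n hb) ha

end

end Pool.Agent.Helper91.TMK.LBM
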