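import Pool.Agent.Helper51.TM.PtN
import Pool.Agent.Helper91.TM.V
import Pool.Agent.Helper51.TM.LBM
import Pool.Agent.Helper21.TM.CVM

/-!
MP_c75db0, Plan W, M7 over the machines `Mch`: the record `PtK` from a Boolean test. The signs are
decided by a centre test `cen` (argument; for the Taylor machine: after the conversion to control
values).
-/

set_option autoImplicit false
noncomputable section
namespace Pool.Agent.Helper91.TMK.PT

open Pool.Agent.Helper90.KMT (PT)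
open Pool.Agent.Helper90.KMO (UU UU_pos UUc_ne)
open Pool.Agent.Helper90.C75 (Vt)
open Pool.Agent.Helper86.CX (andB)
open Pool.Agent.Helper86.CT (Alg Mo mk cst addM subM mulM conjM invM invOK)
open Pool.Agent.Helper62.LBM (RH rhM rhOK)
open Pool.Agent.Helper91.TMK.LBM (TRH_all)
open Pool.Agent.Helper91.TMK.TST (Cvt CvtL cvM okM TOK_cv)
open Pool.Agent.Helper62.SQM (cenOK)
open Pool.Agent.Helper12.NKT
open Pool.Agent.Helper51.FR (PtE LE RTK chM csM andB_t')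
open Pool.Agent.Helper51.TM (ptN psN InB PsF PbF PtK_fct)
open Pool.Agent.Helper6.MONO (Kp xA)
open Pool.Agent.Helper6.MONO.W2 (vC wC cW ep phi ev nc nW Sy rn h1 h2 SyOk RPar)
open Pool.Agent.Helper6.MONO.W2.TY (PtK)

/-! ### kernel side -/

def pt3 {α : Type} (A : Alg α) (cen : Nat → Nat → Mo α → Bool) (P : PtE) (hz : Bool) (C : Mo α)
    (x : RH α) : Bool :=
  andB (cen (nat_lit 0) P.c1 (subM A x.r (mulM A (cst A P.t0 (nat_lit 0)) C)))
    (cond hz true (cen (nat_lit 0) P.c2 (subM A x.h (cst A P.H (nat_lit 0)))))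
def pt2 {α : Type} (A : Alg α) (cen : Nat → Nat → Mo α → Bool) (W I : Mo α) (P : PtE)
    (nx : Nat) (hz : Bool) : Bool :=
  andB (rhOK A W I nx) (pt3 A cen P hz (chM A P.al P.be W) (rhM A W I nx))
/-- THE TEST OF A LETTER `k ≥ 3`; `nx` exact runs, `hz`: no parts `v1` -/
def ptB {α : Type} (A : Alg α) (cen : Nat → Nat → Mo α → Bool) (W : Mo α) (P : PtE)
    (nx : Nat) (hz : Bool) : Bool :=
  andB (cond hz (Nat.beq P.H (nat_lit 0)) true)
    (andB (cen P.m P.c W) (andB (ptN P) (andB (invOK A W) (pt2 A cen W (invM A W) P nx hz))))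

def sB1 {α : Type} (A : Alg α) (cen : Nat → Nat → Mo α → Bool) (P : PtE) (C : Mo α) (x : RH α) :
    Bool := cen (nat_lit 0) P.c1 (subM A x.r (mulM A (cst A P.t0 (nat_lit 0)) C))
def sB2 {α : Type} (A : Alg α) (cen : Nat → Nat → Mo α → Bool) (W I : Mo α) (P : PtE) (mx : Nat) :
    Bool := andB (rhOK A W I mx) (sB1 A cen P (csM A P.al P.be W) (rhM A W I mx))
/-- the first break point; `mx` the largest class of the letter -/
def sB0 {α : Type} (A : Alg α) (cen : Nat → Nat → Mo α → Bool) (W : Mo α) (P : PtE) (mx : Nat) :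
    Bool :=
  Nat.rec (motive := fun _ => Bool) (Nat.beq P.t0 (nat_lit 0))
    (fun n _ => andB (invOK A W) (sB2 A cen W (invM A W) P (Nat.succ n))) mx
/-- THE TEST OF A STAR -/
def ptS {α : Type} (A : Alg α) (cen : Nat → Nat → Mo α → Bool) (W : Mo α) (P : PtE) (mx : Nat) :
    Bool := andB (cen P.m P.c W) (andB (psN P) (sB0 A cen W P mx))

/-- test of the letter with the code `c`: `W` = model of `nW`, `n` pieces, `mx` largest class,
`nx` exact runs, `hz`: no parts `v1`; `nq` pieces of the invariance from the break point `oq` -/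
def leK {α : Type} (A : Alg α) (cen : Nat → Nat → Mo α → Bool) (W : Nat → Mo α) (tb : Nat → LE)
    (n nq oq mx nx : Nat → Nat) (hz : Nat → Bool) (c : Nat) : Bool :=
  cond (Nat.beq (Nat.mod (Nat.div c (nat_lit 2)) (nat_lit 2)) (nat_lit 0)) true
    (andB (andB (andB (Nat.ble ((tb c).tau.getD 0 0) (tb c).e.t0)
        (Nat.ble (nat_lit 281474976710656) ((tb c).tau.getD (n c) 0)))
      (andB (Nat.ble ((tb c).tau.getD (oq c) 0) (tb c).e.t0)
        (Nat.ble (nat_lit 281474976710656) ((tb c).tau.getD (Nat.add (oq c) (nq c)) 0))))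
      (cond (Nat.beq (Nat.div c (nat_lit 2)) (nat_lit 1)) (ptS A cen (W c) (tb c).e (mx c))
        (ptB A cen (W c) (tb c).e (nx c) (hz c))))

/-! ### real side -/

section

variable {α : Type} {D : ℕ} {lf : Mch α} {A : Alg α} {t : ℕ → ℝ}

/-- the law of a centre test -/
structure CEN {α : Type} (D : ℕ) (lf : Mch α) (t : ℕ → ℝ) (cen : ℕ → ℕ → Mo α → Bool) : Prop where
  ok : ∀ {m c : ℕ} {F : Mo α} {f : ℂ}, TOK D lf t f F → cen m c F = true →
    (m : ℝ) ≤ UU * f.re ∧ UU * f.re ≤ 2 * (c : ℝ) - m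

/-- THE CENTRE TEST AFTER THE CONVERSION -/
def cenV {α τ : Type} (V : Cvt α τ) (B : Alg τ) (m c : Nat) (F : Mo α) : Bool :=
  andB (okM V F) (cenOK B m c (cvM V B F).r (cvM V B F).v)

theorem cenV_ok {τ : Type} {lt : τ → Vt D → ℂ} {V : Cvt α τ} {B : Alg τ}
    (hB : Pool.Agent.Helper90.KMT.AOK D lt B) (hV : CvtL D lf lt V) (hP : PT D t) :
    CEN D lf t (cenV V B) where
  ok := fun h hb => by
    obtain ⟨o1, o2⟩ := andB_t' hb
    have h1 := TOK_cv hB hV hP h o1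
    exact ⟨Pool.Agent.Helper62.SQM.TOK_lb hB hP h1 o2,
      Pool.Agent.Helper62.SQM.TOK_ub hB hP h1 o2⟩

theorem cst_nat (hA : AOK D lf A) (hP : PT D t) (n : ℕ) :
    TOK D lf t (((n : ℝ) / UU : ℝ) : ℂ) (cst A n (nat_lit 0)) := by
  refine TOK.cst' hA hP ?_
  have := UUc_ne
  push_cast
  field_simp

theorem CEN.nn {cen : ℕ → ℕ → Mo α → Bool} (hc : CEN D lf t cen) {x : ℝ} {F : Mo α} {c : ℕ}
    (h : TOK D lf t (x : ℂ) F) (hb : cen (nat_lit 0) c F = true) : 0 ≤ x := by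
  have h1 := (hc.ok h hb).1
  rw [Complex.ofReal_re] at h1
  have z : ((nat_lit 0 : ℕ) : ℝ) = 0 := Nat.cast_zero
  rw [z] at h1
  exact nonneg_of_mul_nonneg_right h1 UU_pos

/-- THE FACTS ABOUT THE FAMILY OF A LETTER -/
theorem pt_ok (hA : AOK D lf A) (hP : PT D t) {cen : ℕ → ℕ → Mo α → Bool} (hc : CEN D lf t cen)
    {w : ℝ} {W : Mo α} (hw : TOK D lf t (w : ℂ) W) {P : PtE} {nx : ℕ}
    {hz : Bool} (h : ptB A cen W P nx hz = true) : PbF P nx hz w := by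
  obtain ⟨b0, h⟩ := andB_t' h
  obtain ⟨b1, h⟩ := andB_t' h
  obtain ⟨b2, h⟩ := andB_t' h
  obtain ⟨b5, h⟩ := andB_t' h
  obtain ⟨b6, h⟩ := andB_t' h
  obtain ⟨b7, b8⟩ := andB_t' h
  have hb := hc.ok hw b1
  rw [Complex.ofReal_re] at hb
  have hinv := (TOK.inv hA hP hw b5).1
  have hrh := TRH_all hA hP hw hinv nx b6
  have hC : TOK D lf t (((P.al / UU : ℝ) - P.be / UU * w : ℝ) : ℂ) (chM A P.al P.be W) := by
    refine tc ((cst_nat hA hP P.al).sub hA ((cst_nat hA hP P.be).mul hA hP hw)) ?_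
    push_cast
    ring
  have hT : TOK D lf t ((rn w (nx + 1) - (P.t0 / UU : ℝ) *
      ((P.al / UU : ℝ) - P.be / UU * w) : ℝ) : ℂ)
      (subM A (rhM A W (invM A W) nx).r (mulM A (cst A P.t0 (nat_lit 0))
        (chM A P.al P.be W))) := by
    refine tc (hrh.r.sub hA ((cst_nat hA hP P.t0).mul hA hP hC)) ?_
    push_cast
    ring
  have hH : TOK D lf t ((h1 w (nx + 1) - (P.H / UU : ℝ) : ℝ) : ℂ)
      (subM A (rhM A W (invM A W) nx).h (cst A P.H (nat_lit 0))) := by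
    refine tc (hrh.h.sub hA (cst_nat hA hP P.H)) ?_
    push_cast
    ring
  refine ⟨⟨hb.1, hb.2⟩, b2, hc.nn hT b7, fun hz' => ?_, fun hz' => ?_⟩
  · rw [hz'] at b8
    exact hc.nn hH b8
  · rw [hz'] at b0
    exact Nat.eq_of_beq_eq_true b0

/-- THE FACTS ABOUT A STAR -/
theorem ps_ok (hA : AOK D lf A) (hP : PT D t) {cen : ℕ → ℕ → Mo α → Bool} (hc : CEN D lf t cen)
    {w : ℝ} {W : Mo α} (hw : TOK D lf t (w : ℂ) W) {P : PtE} {mx : ℕ}
    (h : ptS A cen W P mx = true) : PsF P mx w := by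
  obtain ⟨b1, h⟩ := andB_t' h
  obtain ⟨b2, b5⟩ := andB_t' h
  have hb := hc.ok hw b1
  rw [Complex.ofReal_re] at hb
  refine ⟨⟨hb.1, hb.2⟩, b2, ?_⟩
  cases mx with
  | zero =>
    have e : P.t0 = 0 := Nat.eq_of_beq_eq_true b5
    rw [e]
    show 0 ≤ (0 : ℝ) - ((0 : ℕ) : ℝ) / UU * _
    rw [Nat.cast_zero, zero_div, zero_mul, sub_zero]
  | succ n =>
    obtain ⟨k1, k2⟩ := andB_t' b5
    obtain ⟨k3, k4⟩ := andB_t' k2
    have hinv := (TOK.inv hA hP hw k1).1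
    have hrh := TRH_all hA hP hw hinv (Nat.succ n) k3
    have hC : TOK D lf t (((P.al / UU : ℝ) * w - P.be / UU : ℝ) : ℂ) (csM A P.al P.be W) := by
      refine tc (((cst_nat hA hP P.al).mul hA hP hw).sub hA (cst_nat hA hP P.be)) ?_
      push_cast
      ring
    have hT : TOK D lf t ((rn w (n + 1 + 1) - (P.t0 / UU : ℝ) *
        ((P.al / UU : ℝ) * w - P.be / UU) : ℝ) : ℂ)
        (subM A (rhM A W (invM A W) (Nat.succ n)).r (mulM A (cst A P.t0 (nat_lit 0))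
          (csM A P.al P.be W))) := by
      refine tc (hrh.r.sub hA ((cst_nat hA hP P.t0).mul hA hP hC)) ?_
      push_cast
      ring
    exact hc.nn hT k4

/-- **THE RECORD PtK FROM THE TEST** -/
theorem PtK_of (hA : AOK D lf A) (hP : PT D t) {cen : ℕ → ℕ → Mo α → Bool} (hc : CEN D lf t cen)
    {γ δ ε : Type} {Cd : CovD γ δ ε}
    {v : Fin 3 → ℂ} {tb : ℕ → LE} {W : ℕ → Mo α} {bc : ℕ → ℕ → Prop} (hp : 3 ≤ Cd.p)
    (hnx : ∀ g : Sy, SyOk Cd.p g → 1 ≤ nxC Cd.nx (Pool.Agent.Helper6.MONO.W2.TY.sc g))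
    (hw : ∀ g : Sy, SyOk Cd.p g → g.2 % 2 = 1 →
      TOK D lf t ((nW (phi Cd.p) v g : ℝ) : ℂ) (W (Pool.Agent.Helper6.MONO.W2.TY.sc g)))
    (h1' : ∀ a : Bool, ‖nc (phi Cd.p) v a 1‖ ≤ 2)
    (h2 : ∀ g : Sy, SyOk Cd.p g → g.2 % 2 = 1 → 3 ≤ g.2 → 2 ≤ ‖nc (phi Cd.p) v g.1 g.2‖)
    (h : allC (leK A cen W tb (nPc Cd.le) (nQc Cd.le) (oQc Cd.le) (mxC Cd.mx) (nxC Cd.nx)
      (hzC Cd.nx)) (2 * Cd.p - 1) = true)
    (hb : Cd.gb = true → ∀ m, Cd.nB < m → ∃ i < Cd.NB, bc i m) :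
    PtK Cd v (RTK tb (nW (phi Cd.p) v) bc) := by
  have key : ∀ g : Sy, SyOk Cd.p g → g.2 % 2 = 1 →
      (((tb (Pool.Agent.Helper6.MONO.W2.TY.sc g)).tau.getD 0 0 ≤
        (tb (Pool.Agent.Helper6.MONO.W2.TY.sc g)).e.t0 ∧
      281474976710656 ≤ (tb (Pool.Agent.Helper6.MONO.W2.TY.sc g)).tau.getD
        (nPc Cd.le (Pool.Agent.Helper6.MONO.W2.TY.sc g)) 0) ∧
      ((tb (Pool.Agent.Helper6.MONO.W2.TY.sc g)).tau.getD
        (oQc Cd.le (Pool.Agent.Helper6.MONO.W2.TY.sc g)) 0 ≤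
        (tb (Pool.Agent.Helper6.MONO.W2.TY.sc g)).e.t0 ∧
      281474976710656 ≤ (tb (Pool.Agent.Helper6.MONO.W2.TY.sc g)).tau.getD
        (oQc Cd.le (Pool.Agent.Helper6.MONO.W2.TY.sc g) +
          nQc Cd.le (Pool.Agent.Helper6.MONO.W2.TY.sc g)) 0)) ∧
      cond (Nat.beq g.2 1) (ptS A cen (W (Pool.Agent.Helper6.MONO.W2.TY.sc g))
          (tb (Pool.Agent.Helper6.MONO.W2.TY.sc g)).e
          (mxC Cd.mx (Pool.Agent.Helper6.MONO.W2.TY.sc g)))
        (ptB A cen (W (Pool.Agent.Helper6.MONO.W2.TY.sc g))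
          (tb (Pool.Agent.Helper6.MONO.W2.TY.sc g)).e
          (nxC Cd.nx (Pool.Agent.Helper6.MONO.W2.TY.sc g))
          (hzC Cd.nx (Pool.Agent.Helper6.MONO.W2.TY.sc g))) = true := by
    intro g hg ho
    obtain ⟨k1, k2⟩ := Pool.Agent.Helper6.MONO.W2.TY.sc_b hg
    have h3 := Pool.Agent.Helper6.MONO.W2.TY.allC_sound h
      (Pool.Agent.Helper6.MONO.W2.TY.sc g) k1 (by omega)
    have dv : Nat.div (Pool.Agent.Helper6.MONO.W2.TY.sc g) 2 = g.2 :=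
      Pool.Agent.Helper6.MONO.W2.TY.sc_div g
    unfold leK at h3
    rw [dv] at h3
    have e1 : Nat.beq (Nat.mod g.2 2) 0 = false := by
      have : Nat.mod g.2 2 = 1 := ho
      rw [this]
      rfl
    rw [e1] at h3
    obtain ⟨b1, b2⟩ := andB_t' h3
    obtain ⟨b0, b5⟩ := andB_t' b1
    obtain ⟨b3, b4⟩ := andB_t' b0
    obtain ⟨b6, b7⟩ := andB_t' b5
    exact ⟨⟨⟨Nat.le_of_ble_eq_true b3, Nat.le_of_ble_eq_true b4⟩,
      ⟨Nat.le_of_ble_eq_true b6, Nat.le_of_ble_eq_true b7⟩⟩, b2⟩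
  have ok1 : ∀ a : Bool, SyOk Cd.p (a, 1) := fun a =>
    ⟨le_rfl, by show 1 ≤ Cd.p; omega, fun _ => by show 1 < Cd.p; omega⟩
  refine PtK_fct hp hnx h1' h2 (fun g hg ho => (key g hg ho).1.1) (fun g hg ho => (key g hg ho).1.2)
    (fun a => ?_)
    (fun g hg ho hk => ?_) hb
  · exact ps_ok hA hP hc (hw (a, 1) (ok1 a) rfl) (key (a, 1) (ok1 a) rfl).2
  · have h3 := (key g hg ho).2
    have e2 : Nat.beq g.2 1 = false := by
      rw [Bool.eq_false_iff]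
      intro h4
      have := Nat.eq_of_beq_eq_true h4
      omega
    rw [e2] at h3
    exact pt_ok hA hP hc (hw g hg ho) h3

/-- the record at the points of a window -/
theorem PtK_x (hA : AOK D lf A) (hP : PT D t) {cen : ℕ → ℕ → Mo α → Bool} (hc : CEN D lf t cen)
    {γ δ ε : Type} {Cd : CovD γ δ ε} {q r : ℕ}
    (hp : 3 ≤ Cd.p)
    (hnx : ∀ g : Sy, SyOk Cd.p g → 1 ≤ nxC Cd.nx (Pool.Agent.Helper6.MONO.W2.TY.sc g))
    (hpq : Cd.p ≤ q) (hqr : q ≤ r) (hr4 : 4 ≤ r) {x : ℝ}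
    (hxA : xA Cd.p q r ≤ x) (hx2 : x < 2) {tb : ℕ → LE} {W : ℕ → Mo α} {bc : ℕ → ℕ → Prop}
    (hw : ∀ g : Sy, SyOk Cd.p g → g.2 % 2 = 1 →
      TOK D lf t ((nW (phi Cd.p) (vC Cd.p (cW Cd.p q r x) (Kp q ^ 2) (Kp r ^ 2)) g : ℝ) : ℂ)
        (W (Pool.Agent.Helper6.MONO.W2.TY.sc g)))
    (h : allC (leK A cen W tb (nPc Cd.le) (nQc Cd.le) (oQc Cd.le) (mxC Cd.mx) (nxC Cd.nx)
      (hzC Cd.nx)) (2 * Cd.p - 1) = true)
    (hb : Cd.gb = true → ∀ m, Cd.nB < m → ∃ i < Cd.NB, bc i m) :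
    PtK Cd (vC Cd.p (cW Cd.p q r x) (Kp q ^ 2) (Kp r ^ 2))
      (RTK tb (nW (phi Cd.p) (vC Cd.p (cW Cd.p q r x) (Kp q ^ 2) (Kp r ^ 2))) bc) := by
  obtain ⟨_, _, _, _, e1, e⟩ := Pool.Agent.Helper6.MONO.W2.ptF_k hp hpq hqr hr4 hxA hx2
  refine PtK_of hA hP hc hp hnx hw (fun a => ?_) (fun g hg ho hk => (e g hg ho hk).1) h hb
  rw [(e1 a).1]
  have e2 : Kp (Pool.Agent.Helper6.MONO.W2.mqr q r a) =
      2 * Real.cos (phi (Pool.Agent.Helper6.MONO.W2.mqr q r a)) := rfl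
  rw [e2]
  have := Real.cos_le_one (phi (Pool.Agent.Helper6.MONO.W2.mqr q r a))
  linarith

end

end Pool.Agent.Helper91.TMK.PT
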