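import Pool.Agent.Helper51.TM.M7S
import Pool.Agent.Helper21.TM.M7C
import Pool.Agent.Helper82.TM.ITJ

/-!
MP_c75db0, Plan W, row M7 over the machines `Mch`: inclusions, start and end at the points of a
cell; the laws of a cell.
-/

set_option autoImplicit false
noncomputable section
namespace Pool.Agent.Helper91.TMK.SW

open Matrix
open Pool.Agent.Helper90.KMT (PT)
open Pool.Agent.Helper86.CX (Cx andB)
open Pool.Agent.Helper86.CT (N3 Alg Mo KM A3)
open Pool.Agent.Helper12.NKT (CovD Fm dfF siC)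
open Pool.Agent.Helper51.FR (RTK cbd)
open Pool.Agent.Helper26.SF (Sf)
open Pool.Agent.Helper82.TST (H6 uv)
open Pool.Agent.Helper91.TMK.TST
open Pool.Agent.Helper91.TMK.ITF (TOK_sf')
open Pool.Agent.Helper6.MONO (V3)
open Pool.Agent.Helper6.MONO.W2 (Mt NZ nW phi Sy syi)
open Pool.Agent.Helper6.MONO.W2.TY (PtS sc siC_sc a0g)
open Pool.Agent.Helper21.SW (Mu cK T3 lf3 M4 SE)

/-- code of the start syllable -/
def sc0 (gb : Bool) : Nat := cond gb (nat_lit 8) (nat_lit 4)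

theorem sc0_a (gb : Bool) : sc (a0g gb) = sc0 gb := by
  cases gb <;> rfl

section

variable {α κ γ δ : Type}

/-- THE TEST OF START AND END -/
def seK0 (M : Mn α) (G : Nat → Nat → H6 → KM α → KM α → Bool) (T : TK α κ γ) (C : Cel κ)
    (E : SE) : Bool :=
  seB M A3 G T C E (sc0 C.D.gb) (siC C.D.p (sc0 C.D.gb))

variable {lf : Mch α} {lq : Mch (N3 α)} {KV : κ → (ℕ → ℝ) → Mt} {M : Mn α}
  {G : Nat → Nat → H6 → KM α → KM α → Bool} {T : TK α κ γ} {C : Cel κ} {I : IT α κ γ δ}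
  {q r : ℕ} {x : ℝ} {t : ℕ → ℝ}

/-- **THE INCLUSIONS AT A POINT** -/
theorem PtC.ic (h : PtC lf M C q r x t) (hM : MnL lf M) (hT : TKL lf lq KV T) (hG : GeL 3 lf G)
    {ms : List (List (Mu × Sf))} (hb : incB M G T C ms = true) (i : ℕ) :
    ∀ e ∈ (C.D.fm.getD i dfF).inc,
      NZ (cK (vX C q r x) (KV (C.fo e.1) t)) ⊆ NZ (cK (vX C q r x) (KV (C.fo i) t)) :=
  incB_ok hT hG hM.a3 h.hP (fun s => TOK_sf' hM.a3 h.hP le_rfl hM.qd s) h.two hb i

/-- **START AND END AT A POINT** -/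
theorem PtC.se (h : PtC lf M C q r x t) (hM : MnL lf M) (hT : TKL lf lq KV T) (hG : GeL 3 lf G)
    {E : SE} (hb : seK0 M G T C E = true) :
    PtS C.D (vX C q r x) (fun i => cK (vX C q r x) (KV (C.fo i) t)) (a0g C.D.gb) E.U (uv E.y)
      cbd :=
  seB_ok hT hG hM.a3 Pool.Agent.Helper21.SW.a3 hM.V h.hP h.two h.fr.v (sc0_a _)
    (by rw [← siC_sc, sc0_a]) hb

theorem seK0_ind {E : SE} (hb : seK0 M G T C E = true) : LinearIndependent ℂ E.U := seB_ind hb

/-- **THE LAWS OF A CELL** from the law of the item tests, the inclusions, start and end -/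
theorem celL_of (hM : MnL lf M) (hT : TKL lf lq KV T) (hG : GeL 3 lf G)
    (hgb : C.D.gb = true → 4 ≤ C.D.p)
    (hI : ∀ {q r : ℕ} {x : ℝ} {t : ℕ → ℝ}, PtC lf M C q r x t → ∃ bc : ℕ → ℕ → Prop,
      (C.D.gb = true → ∀ n, C.D.nB < n → ∃ i < C.D.NB, bc i n) ∧
      ITL lf KV I C q r x t (RTK C.tb (nW (phi C.D.p) (vX C q r x)) bc))
    {ms : List (List (Mu × Sf))} (hb : incB M G T C ms = true) {E : SE}
    (hs : seK0 M G T C E = true) : CelL lf KV M I C E.U (uv E.y) cbd where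
  gb := hgb
  it := fun h => hI h
  ic := fun h => h.ic hM hT hG hb
  se := fun h => h.se hM hT hG hs
  ind := seK0_ind hs

end

end Pool.Agent.Helper91.TMK.SW
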