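import Pool.Agent.Helper21.TM.M7T
import Pool.Agent.Helper82.TM.FR
import Pool.Agent.Helper51.FR.M7S

/-!
MP_c75db0, Plan W, row M7 (B3) over the machines `Mch`: the inclusions of the forms of a cell, in
the frame of the larger form, with a scale.
-/

set_option autoImplicit false
noncomputable section
namespace Pool.Agent.Helper91.TMK.SW

open Matrix
open Pool.Agent.Helper90.C75 (Vt)
open Pool.Agent.Helper90.KMT (PT)
open Pool.Agent.Helper90.KMO (UU UU_pos UUc_ne cz zv zv_p)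
open Pool.Agent.Helper86.C75 (Z)
open Pool.Agent.Helper86.CX (Cx andB)
open Pool.Agent.Helper86.CT (N3 Alg Mo KM mk cst addM subM mulM conjM)
open Pool.Agent.Helper17.K9 (V9)
open Pool.Agent.Helper62.TVM (C9 cstV V3m)
open Pool.Agent.Helper12.NKT (CovD Fm dfF)
open Pool.Agent.Helper51.FR (andB_t' inc_hat trK)
open Pool.Agent.Helper26.SF (Sf sfOK sfM sfR sf_pos)
open Pool.Agent.Helper82.TST (Fr dtC nzC frA frR cg9 smK H6)
open Pool.Agent.Helper91.TMK.TST
open Pool.Agent.Helper6.MONO (V3)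
open Pool.Agent.Helper6.MONO.W2 (Mt NZ brJ hr)
open Pool.Agent.Helper21.SW (Mu cK)

section

variable {α κ γ ε : Type}

/-- one inclusion: `V` the frame, `Ki` the larger form in the frame -/
def inc1 (M : Mn α) (G : Nat → Nat → H6 → KM α → KM α → Bool) (f : Fr) (V : V9 α)
    (Ki Ke : KM α) (d : Mu × Sf) : Bool :=
  andB (sfOK d.2) (incG M.A G f d.1.l d.1.m (sfM M.A M.qd d.2) Ki (cg9 M.A V Ke))

/-- the inclusions in one form (list of the smaller forms, data) -/
def incL (M : Mn α) (G : Nat → Nat → H6 → KM α → KM α → Bool) (T : TK α κ γ) (C : Cel κ)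
    (f : Fr) (V : V9 α) (Ki : KM α) (l : List (Nat × ε)) : List (Mu × Sf) → Bool :=
  List.rec (motive := fun _ => List (Mu × Sf) → Bool) (fun _ => true)
    (fun e _ ih ms => List.rec (motive := fun _ => Bool) false
      (fun m ms' _ => andB (inc1 M G f V Ki (T.km (C.fo e.1)) m) (ih ms')) ms) l

/-- the inclusions in the form `i` -/
def incF (M : Mn α) (G : Nat → Nat → H6 → KM α → KM α → Bool) (T : TK α κ γ) (C : Cel κ)
    (i : Nat) (f : Fr) (V : V9 α) (l : List (Nat × ε)) (ms : List (Mu × Sf)) : Bool :=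
  List.rec (motive := fun _ => Bool) true
    (fun _ _ _ => andB (nzC (dtC f.c)) (andB (Nat.ble (nat_lit 1) f.s)
      (incL M G T C f V (cg9 M.A V (T.km (C.fo i))) l ms))) l

/-- the inclusions in the forms `i`, `i + 1`, ... -/
def incA (M : Mn α) (G : Nat → Nat → H6 → KM α → KM α → Bool) (T : TK α κ γ) (C : Cel κ)
    (l : List (Fm ε)) : Nat → List (List (Mu × Sf)) → Bool :=
  List.rec (motive := fun _ => Nat → List (List (Mu × Sf)) → Bool) (fun _ _ => true)
    (fun f _ ih i ms => List.rec (motive := fun _ => Bool) false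
      (fun m ms' _ => andB (incF M G T C i (C.fq i) (frA M.A (C.fq i)) f.inc m)
        (ih (Nat.succ i) ms')) ms) l

/-- THE TEST OF THE INCLUSIONS OF A CELL -/
def incB (M : Mn α) (G : Nat → Nat → H6 → KM α → KM α → Bool) (T : TK α κ γ) (C : Cel κ)
    (ms : List (List (Mu × Sf))) : Bool :=
  incA M G T C C.D.fm (nat_lit 0) ms

end

section

variable {α κ γ ε : Type} {lf : Mch α} {lq : Mch (N3 α)} {KV : κ → (ℕ → ℝ) → Mt}
  {M : Mn α} {G : Nat → Nat → H6 → KM α → KM α → Bool} {T : TK α κ γ} {C : Cel κ} {t : ℕ → ℝ}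

theorem inc1_ok (hG : GeL 3 lf G) (hA : AOK 3 lf M.A) (hP : PT 3 t)
    (hS : ∀ s : Sf, TOK 3 lf t ((sfR s t : ℝ) : ℂ) (sfM M.A M.qd s))
    {v : V3} (h2 : brJ 1 v v = 2) {f : Fr} (b1 : nzC (dtC f.c) = true) (b3 : 1 ≤ f.s)
    {Ki Ke : Mt} {Mi : KM α} {Me : KM α} (hi : HK 3 lf t ((frR f)ᴴ * Ki * frR f) Mi)
    (he : HK 3 lf t Ke Me) {d : Mu × Sf} (h : inc1 M G f (frA M.A f) Mi Me d = true) :
    NZ (cK v Ke) ⊆ NZ (cK v Ki) := by
  obtain ⟨s1, s2⟩ := andB_t' h
  exact inc_hat h2 fun u hu => incK_ok hG hP b1 b3 hA hi (he.g9 hA hP (TV_frA hA hP f))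
    (sf_pos s1 hP le_rfl) (hS d.2) s2 u hu

theorem incL_ok (hT : TKL lf lq KV T) (hG : GeL 3 lf G) (hA : AOK 3 lf M.A) (hP : PT 3 t)
    (hS : ∀ s : Sf, TOK 3 lf t ((sfR s t : ℝ) : ℂ) (sfM M.A M.qd s))
    {v : V3} (h2 : brJ 1 v v = 2) {f : Fr} (b1 : nzC (dtC f.c) = true) (b3 : 1 ≤ f.s)
    {Ki : Mt} {Mi : KM α} (hi : HK 3 lf t ((frR f)ᴴ * Ki * frR f) Mi) :
    ∀ {l : List (ℕ × ε)} {ms : List (Mu × Sf)}, incL M G T C f (frA M.A f) Mi l ms = true →
      ∀ e ∈ l, NZ (cK v (KV (C.fo e.1) t)) ⊆ NZ (cK v Ki) := by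
  intro l
  induction l with
  | nil => intro ms _ e he; cases he
  | cons a l ih =>
    intro ms h e he
    cases ms with
    | nil => exact absurd h (by show ¬ (false = true); simp)
    | cons m ms =>
      obtain ⟨h1, h2'⟩ := andB_t' h
      rcases List.mem_cons.1 he with rfl | he
      · exact inc1_ok hG hA hP hS h2 b1 b3 hi (hT.km hP) h1
      · exact ih h2' e he

theorem incF_ok (hT : TKL lf lq KV T) (hG : GeL 3 lf G) (hA : AOK 3 lf M.A) (hP : PT 3 t)
    (hS : ∀ s : Sf, TOK 3 lf t ((sfR s t : ℝ) : ℂ) (sfM M.A M.qd s))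
    {v : V3} (h2 : brJ 1 v v = 2) {i : ℕ} {f : Fr} {l : List (ℕ × ε)} {ms : List (Mu × Sf)}
    (h : incF M G T C i f (frA M.A f) l ms = true) :
    ∀ e ∈ l, NZ (cK v (KV (C.fo e.1) t)) ⊆ NZ (cK v (KV (C.fo i) t)) := by
  cases l with
  | nil => intro e he; cases he
  | cons a l =>
    obtain ⟨b1, h⟩ := andB_t' h
    obtain ⟨b3, h⟩ := andB_t' h
    exact incL_ok hT hG hA hP hS h2 b1 (Nat.le_of_ble_eq_true b3)
      ((hT.km hP).g9 hA hP (TV_frA hA hP f)) h

theorem incA_ok (hT : TKL lf lq KV T) (hG : GeL 3 lf G) (hA : AOK 3 lf M.A) (hP : PT 3 t)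
    (hS : ∀ s : Sf, TOK 3 lf t ((sfR s t : ℝ) : ℂ) (sfM M.A M.qd s))
    {v : V3} (h2 : brJ 1 v v = 2) :
    ∀ {l : List (Fm ε)} {k : ℕ} {ms : List (List (Mu × Sf))}, incA M G T C l k ms = true →
      ∀ i, ∀ e ∈ (l.getD i dfF).inc,
      NZ (cK v (KV (C.fo e.1) t)) ⊆ NZ (cK v (KV (C.fo (k + i)) t)) := by
  intro l
  induction l with
  | nil =>
    intro k ms _ i e he
    have h0 : (([] : List (Fm ε)).getD i dfF).inc = [] := by
      cases i <;> rfl
    rw [h0] at he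
    cases he
  | cons a l ih =>
    intro k ms h i e he
    cases ms with
    | nil => exact absurd h (by show ¬ (false = true); simp)
    | cons m ms =>
      obtain ⟨h1, h2'⟩ := andB_t' h
      cases i with
      | zero => exact incF_ok hT hG hA hP hS h2 h1 e he
      | succ i =>
        have h3 := ih h2' i e he
        have e1 : k + (i + 1) = Nat.succ k + i := by
          have : Nat.succ k = k + 1 := rfl
          omega
        rw [e1]
        exact h3

/-- **THE INCLUSIONS OF THE FORMS** -/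
theorem incB_ok (hT : TKL lf lq KV T) (hG : GeL 3 lf G) (hA : AOK 3 lf M.A) (hP : PT 3 t)
    (hS : ∀ s : Sf, TOK 3 lf t ((sfR s t : ℝ) : ℂ) (sfM M.A M.qd s))
    {v : V3} (h2 : brJ 1 v v = 2) {ms : List (List (Mu × Sf))} (h : incB M G T C ms = true)
    (i : ℕ) : ∀ e ∈ (C.D.fm.getD i dfF).inc,
      NZ (cK v (KV (C.fo e.1) t)) ⊆ NZ (cK v (KV (C.fo i) t)) := by
  intro e he
  have h3 := incA_ok hT hG hA hP hS h2 h i e he
  have e0 : (nat_lit 0) + i = i := Nat.zero_add i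
  rw [e0] at h3
  exact h3

end

end Pool.Agent.Helper91.TMK.SW
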