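import Pool.Agent.Helper51.TM.M7I

/-!
MP_c75db0, Plan W, row M7 (B2) over the machines `Mch`: start and end of a cell.
-/

set_option autoImplicit false
noncomputable section
namespace Pool.Agent.Helper91.TMK.SW

open Matrix
open Pool.Agent.Helper90.C75 (Vt)
open Pool.Agent.Helper90.KMT (PT)
open Pool.Agent.Helper90.KMO (UU UU_pos UUc_ne cz zv zv_p)
open Pool.Agent.Helper86.C75 (Z)
open Pool.Agent.Helper86.CX (Cx andB)
open Pool.Agent.Helper86.CT (N3 Alg Mo KM mk cst addM subM mulM conjM)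
open Pool.Agent.Helper17.K9 (V9)
open Pool.Agent.Helper62.TVM (C3 C9 cstV cstW V3m)
open Pool.Agent.Helper12.NKT (CovD Fm dfF allC allF mxC siC)
open Pool.Agent.Helper51.FR (andB_t' vbT cbd vb_ok cn_ok doU_hat doY_hat st_hat)
open Pool.Agent.Helper82.TST (H6 cuW uv uv_null)
open Pool.Agent.Helper91.TMK.TST
open Pool.Agent.Helper6.MONO (V3)
open Pool.Agent.Helper6.MONO.W2 (Mt NZ rfJ brJ hr J1 Sy syi SyOk TyOk hr_c0)
open Pool.Agent.Helper6.MONO.W2.TY (PtS leF sc cmx siC_sc sc_b allC_sound)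
open Pool.Agent.Helper21.SW (Mu cK T3 M4 SE nulT nul_ok indT ind_ok inL inL_ok allF_ok)

/-! ### the kernel side -/

section

variable {α κ γ : Type}

/-- the tests for one form -/
def do4 (M : Mn α) (G : Nat → Nat → H6 → KM α → KM α → Bool) (E : SE) (m : M4) (K : KM α) : Bool :=
  andB (doG M.A G m.a.l m.a.m (cstW M.A E.U0 (nat_lit 0)) K)
    (andB (doG M.A G m.b.l m.b.m (cstW M.A E.U1 (nat_lit 0)) K)
      (andB (doG M.A G m.c.l m.c.m (cstW M.A E.U2 (nat_lit 0)) K)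
        (doG M.A G m.d.l m.d.m (cstW M.A E.y (nat_lit 0)) K)))
def doL (M : Mn α) (G : Nat → Nat → H6 → KM α → KM α → Bool) (T : TK α κ γ) (C : Cel κ) (E : SE)
    (l : List (Nat × M4)) : Bool :=
  List.rec (motive := fun _ => Bool) true
    (fun e _ b => andB (do4 M G E e.2 (T.km (C.fo e.1))) b) l
/-- all types are tested -/
def cvT (C : Cel κ) (l : List (Nat × M4)) : Bool :=
  allC (fun c => allF (fun f => inL l (leF C.D (Nat.add c (Nat.mul (nat_lit 32) f))))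
    (mxC C.D.mx c)) (2 * C.D.p - 1)
/-- one start vector -/
def vaU (M : Mn α) (G : Nat → Nat → H6 → KM α → KM α → Bool) (C : Cel κ) (U : C3) (K : KM α) :
    Bool :=
  andB (nulT U) (vaG M.A G K (cuW M.A (C.f M).v (cstW M.A U (nat_lit 0))))
def seV (M : Mn α) (G : Nat → Nat → H6 → KM α → KM α → Bool) (C : Cel κ) (E : SE) (K : KM α) :
    Bool :=
  andB (vaU M G C E.U0 K) (andB (vaU M G C E.U1 K) (vaU M G C E.U2 K))
/-- the entries of the polar vector are small, after the conversion -/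
def vbV (M : Mn α) (B : Alg T3) (V : V3m α) : Bool := andB (okW M.V V) (vbT (cvW M.V B V))
/-- THE TEST: `ca`, `ce` the codes of `a0` and of its inverse -/
def seB (M : Mn α) (B : Alg T3) (G : Nat → Nat → H6 → KM α → KM α → Bool) (T : TK α κ γ)
    (C : Cel κ) (E : SE) (ca ce : Nat) : Bool :=
  andB (indT E) (andB (vbV M B (C.f M).v) (andB (cvT C E.d)
    (andB (seV M G C E (T.km (C.fo (leF C.D ca))))
      (andB (vaU M G C E.y (T.km (C.fo (leF C.D ce)))) (doL M G T C E E.d)))))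

end

/-! ### the real side -/

section

variable {α κ γ : Type} {lf : Mch α} {lq : Mch (N3 α)} {KV : κ → (ℕ → ℝ) → Mt}
  {M : Mn α} {B : Alg T3} {G : Nat → Nat → H6 → KM α → KM α → Bool} {T : TK α κ γ} {C : Cel κ}
  {t : ℕ → ℝ}

theorem doL_ok {E : SE} : ∀ {l : List (ℕ × M4)}, doL M G T C E l = true → ∀ e ∈ l,
    do4 M G E e.2 (T.km (C.fo e.1)) = true := by
  intro l
  induction l with
  | nil => intro _ e he; cases he
  | cons a l ih =>
    intro h e he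
    obtain ⟨h1, h2⟩ := andB_t' h
    rcases List.mem_cons.1 he with rfl | he
    · exact h1
    · exact ih h2 e he

theorem st_ok (hT : TKL lf lq KV T) (hG : GeL 3 lf G) (hA : AOK 3 lf M.A) (hP : PT 3 t) {v : V3}
    (h2 : brJ 1 v v = 2) (hv : TW 3 lf t v (C.f M).v) {U : C3} {i : ℕ}
    (h : vaU M G C U (T.km (C.fo i)) = true) : uv U ∈ NZ (cK v (KV (C.fo i) t)) := by
  obtain ⟨k1, k2⟩ := andB_t' h
  have e := va_ok hG hA hP (hT.km (k := C.fo i) hP) (TW.cu hA hP hv (TW_uv hA hP U))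
    (hr_c0 h2 (uv U) (nul_ok k1)) k2
  exact st_hat h2 e

theorem do4_ok (hT : TKL lf lq KV T) (hG : GeL 3 lf G) (hA : AOK 3 lf M.A) (hP : PT 3 t) {v : V3}
    (h2 : brJ 1 v v = 2) (hb : ∀ y : V3, ‖(rfJ 1 v).mulVec y‖ ≤ 193 * ‖y‖) {E : SE} {m : M4}
    {i : ℕ} (h : do4 M G E m (T.km (C.fo i)) = true) (y : V3)
    (hy : y ∈ NZ (cK v (KV (C.fo i) t))) :
    (∀ j, ‖y‖ ≤ cbd * ‖brJ 1 ((rfJ 1 v).mulVec (E.U j)) y‖) ∧
      ‖y‖ ≤ cbd * ‖brJ 1 ((rfJ 1 v).mulVec y) (uv E.y)‖ := by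
  obtain ⟨d0, h⟩ := andB_t' h
  obtain ⟨d1, h⟩ := andB_t' h
  obtain ⟨d2, d3⟩ := andB_t' h
  have key : ∀ {U : C3} {l : ℕ} {z : Z}, doG M.A G l z (cstW M.A U (nat_lit 0))
      (T.km (C.fo i)) = true → ‖y‖ ≤ cbd * ‖brJ 1 ((rfJ 1 v).mulVec (uv U)) y‖ := fun hd =>
    doU_hat h2 (by norm_num) hb (do_ok hG hA hP (hT.km hP) (TW_uv hA hP _) hd) y hy
  have e3 : ‖y‖ ≤ cbd * ‖brJ 1 ((rfJ 1 v).mulVec y) (uv E.y)‖ :=
    doY_hat h2 (by norm_num) hb (do_ok hG hA hP (hT.km hP) (TW_uv hA hP _) d3) y hy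
  exact ⟨Pool.Agent.Helper21.SW.U_all (P := fun U => ‖y‖ ≤ cbd * ‖brJ 1 ((rfJ 1 v).mulVec U) y‖)
    (key d0) (key d1) (key d2), e3⟩

/-- **START AND END AT A POINT** -/
theorem seB_ok (hT : TKL lf lq KV T) (hG : GeL 3 lf G) (hA : AOK 3 lf M.A)
    (hB : Pool.Agent.Helper90.KMT.AOK 3 Pool.Agent.Helper21.SW.lf3 B)
    (hV : CvtL 3 lf Pool.Agent.Helper21.SW.lf3 M.V) (hP : PT 3 t) {v : V3} (h2 : brJ 1 v v = 2)
    (hv : TW 3 lf t v (C.f M).v) {E : SE} {a0 : Sy} {ca ce : ℕ} (ha : sc a0 = ca)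
    (he : sc (syi C.D.p a0) = ce) (h : seB M B G T C E ca ce = true) :
    PtS C.D v (fun i => cK v (KV (C.fo i) t)) a0 E.U (uv E.y) cbd := by
  obtain ⟨_, h⟩ := andB_t' h
  obtain ⟨hb, h⟩ := andB_t' h
  obtain ⟨hc, h⟩ := andB_t' h
  obtain ⟨hs, h⟩ := andB_t' h
  obtain ⟨hy, hd⟩ := andB_t' h
  obtain ⟨ho, hb⟩ := andB_t' hb
  have hn := fun y => cn_ok hP (TW_cv hB hV hP hv ho) hb y
  have dt : ∀ b, TyOk C.D.p (cmx C.D) b →
      ∃ m : M4, do4 M G E m (T.km (C.fo (leF C.D (Pool.Agent.Helper6.MONO.W2.TY.tc b)))) = true := by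
    intro b hb'
    obtain ⟨k1, k2⟩ := sc_b hb'.1
    have h3 := allC_sound hc (sc b.1) k1 (by omega)
    have h4 := allF_ok h3 b.2 hb'.2
    have e : Nat.add (sc b.1) (Nat.mul 32 b.2) = Pool.Agent.Helper6.MONO.W2.TY.tc b := rfl
    rw [e] at h4
    obtain ⟨m, hm⟩ := inL_ok h4
    exact ⟨m, doL_ok hd (leF C.D (Pool.Agent.Helper6.MONO.W2.TY.tc b), m) hm⟩
  obtain ⟨s0, s12⟩ := andB_t' hs
  obtain ⟨s1, s2⟩ := andB_t' s12
  have t0 := st_ok hT hG hA hP h2 hv s0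
  have t1 := st_ok hT hG hA hP h2 hv s1
  have t2 := st_ok hT hG hA hP h2 hv s2
  have t3 := st_ok hT hG hA hP h2 hv hy
  have t4 : ∀ b, TyOk C.D.p (cmx C.D) b → ∀ y ∈ NZ (cK v (KV (C.fo (leF C.D (Pool.Agent.Helper6.MONO.W2.TY.tc b))) t)),
      (∀ j, ‖y‖ ≤ cbd * ‖brJ 1 ((rfJ 1 v).mulVec (E.U j)) y‖) ∧
      ‖y‖ ≤ cbd * ‖brJ 1 ((rfJ 1 v).mulVec y) (uv E.y)‖ := by
    intro b hb' y hy'
    obtain ⟨m, hm⟩ := dt b hb'
    exact do4_ok hT hG hA hP h2 hn hm y hy'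
  rw [← ha] at t0 t1 t2
  rw [← he] at t3
  exact {
    stU := Pool.Agent.Helper21.SW.U_all
      (P := fun U => U ∈ NZ (cK v (KV (C.fo (leF C.D (sc a0))) t))) t0 t1 t2
    doU := fun b hb' y hy' => (t4 b hb' y hy').1
    enY := t3
    doY := fun b hb' y hy' => (t4 b hb' y hy').2 }

/-- the start vectors are independent -/
theorem seB_ind {E : SE} {ca ce : ℕ} (h : seB M B G T C E ca ce = true) :
    LinearIndependent ℂ E.U := ind_ok (andB_t' h).1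

end

end Pool.Agent.Helper91.TMK.SW
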