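import Pool.Agent.Helper51.FR.PtK

/-!
MP_c75db0, Plan W, M7: the facts about the families of the runs, machine-free part: from the tests
on natural numbers, bounds of `nW` and the signs of `ρ - t0 ch`, `h1 - H`.
-/

set_option autoImplicit false
noncomputable section
namespace Pool.Agent.Helper51.TM

open Pool.Agent.Helper90.KMO (UU UU_pos)
open Pool.Agent.Helper86.CX (andB)
open Pool.Agent.Helper12.NKT
open Pool.Agent.Helper51.FR (PtE orB qd sqW pt1 sB3 LE RTK andB_t' qd_ok qd_conc sqW_ok UU_nat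
  rr_third)
open Pool.Agent.Helper6.MONO (Kp)
open Pool.Agent.Helper6.MONO.W2 (ep phi ev nc nW Sy rn h1 nEx SyOk RPar sqrt_chord)
open Pool.Agent.Helper6.MONO.W2.TY (PtK)

/-! ### the tests on natural numbers -/

/-- letter `k ≥ 3` -/
def ptN (P : PtE) : Bool :=
  andB (orB (Nat.ble P.l (nat_lit 1125899906842624)) (Nat.ble P.l P.m))
    (pt1 P (Nat.sub (Nat.add P.c P.c) P.m))
/-- star -/
def psN (P : PtE) : Bool :=
  andB (Nat.ble P.l P.m)
    (andB (orB (Nat.ble (nat_lit 1125899906842624) P.H)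
      (Nat.ble (Nat.sub (Nat.add P.c P.c) P.m) P.H)) (sB3 P))

/-- `w` between the bounds -/
structure InB (P : PtE) (w : ℝ) : Prop where
  lb : (P.m : ℝ) ≤ UU * w
  ub : UU * w ≤ 2 * (P.c : ℝ) - P.m

theorem InB.mc {P : PtE} {w : ℝ} (h : InB P w) : P.m ≤ P.c + P.c := by
  have : (P.m : ℝ) ≤ ((P.c + P.c : ℕ) : ℝ) := by
    push_cast
    linarith [h.lb, h.ub]
  exact_mod_cast this

/-- letter `k ≥ 3`: `0 < ch`, the quadratic -/
theorem pt_n {P : PtE} {w : ℝ} (hb : InB P w) (h4 : 4 ≤ w) (h : ptN P = true) :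
    0 < (P.al / UU : ℝ) - P.be / UU * w ∧
    w + ((P.al / UU : ℝ) - P.be / UU * w) ^ 2 - w * ((P.al / UU : ℝ) - P.be / UU * w) ≤ 0 ∧
    0 ≤ (P.H / UU : ℝ) := by
  have hU := UU_pos
  obtain ⟨b2, b3⟩ := andB_t' h
  obtain ⟨b9, b10⟩ := andB_t' b3
  obtain ⟨b11, b12⟩ := andB_t' b10
  have lb := hb.lb
  have ub := hb.ub
  set u : ℕ := P.c + P.c - P.m with hu
  have hmc' := hb.mc
  have eu : ((u : ℕ) : ℝ) = 2 * P.c - P.m := by
    rw [hu, Nat.cast_sub hmc']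
    push_cast
    ring
  have hwu : w ≤ u / UU := by
    rw [le_div_iff₀ hU, eu]
    linarith
  have hwl : (P.l / UU : ℝ) ≤ w := by
    rw [div_le_iff₀ hU]
    cases hc : Nat.ble P.l (nat_lit 1125899906842624) with
    | true =>
      have g1 : P.l ≤ 1125899906842624 := Nat.le_of_ble_eq_true hc
      have g2 : (P.l : ℝ) ≤ 1125899906842624 := by exact_mod_cast g1
      have g3 : (1125899906842624 : ℝ) = 4 * UU := by unfold UU; norm_num
      rw [g3] at g2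
      nlinarith
    | false =>
      rw [hc] at b2
      have g1 : P.l ≤ P.m := Nat.le_of_ble_eq_true b2
      have g2 : (P.l : ℝ) ≤ P.m := by exact_mod_cast g1
      linarith
  have hpos : P.be * u < P.al * 281474976710656 := Nat.le_of_ble_eq_true b9
  have hlu : P.l ≤ u := by
    have : (P.l / UU : ℝ) ≤ u / UU := hwl.trans hwu
    rw [div_le_div_iff_of_pos_right hU] at this
    exact_mod_cast this
  have hbl : P.be * P.l ≤ P.al * 281474976710656 :=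
    (Nat.mul_le_mul_left _ hlu).trans hpos.le
  have q0 := qd_ok hbl b11
  have q1 := qd_ok hpos.le b12
  have hbe : (0 : ℝ) ≤ P.be / UU := by positivity
  have hconc := qd_conc hbe hwl hwu q0 q1
  have hch : 0 < (P.al / UU : ℝ) - P.be / UU * w := by
    have g1 : ((P.be * u : ℕ) : ℝ) < ((P.al * 281474976710656 : ℕ) : ℝ) := by exact_mod_cast hpos
    rw [Nat.cast_mul, Nat.cast_mul, UU_nat] at g1
    have g2 : (P.be / UU : ℝ) * w ≤ P.be / UU * (u / UU) := mul_le_mul_of_nonneg_left hwu hbe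
    have g3 : (P.be / UU : ℝ) * (u / UU) < P.al / UU := by
      have : (P.be / UU : ℝ) * (u / UU) = (P.be * u) / UU ^ 2 := by field_simp
      rw [this, div_lt_div_iff₀ (by positivity) hU]
      nlinarith
    linarith
  exact ⟨hch, hconc, by positivity⟩

/-- star: `0 < ch`, `w - √w ≤ ch` -/
theorem ps_n {P : PtE} {w : ℝ} (hb : InB P w) (h4 : w ≤ 4) (h : psN P = true) :
    0 < (P.al / UU : ℝ) * w - P.be / UU ∧ w - Real.sqrt w ≤ (P.al / UU : ℝ) * w - P.be / UU := by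
  have hU := UU_pos
  obtain ⟨b2, h⟩ := andB_t' h
  obtain ⟨b3, b4⟩ := andB_t' h
  obtain ⟨b6, h⟩ := andB_t' b4
  obtain ⟨b7, h⟩ := andB_t' h
  obtain ⟨b8, b9⟩ := andB_t' h
  have lb := hb.lb
  have ub := hb.ub
  have hmc' := hb.mc
  have hwl : (P.l / UU : ℝ) ≤ w := by
    rw [div_le_iff₀ hU]
    have g1 : P.l ≤ P.m := Nat.le_of_ble_eq_true b2
    have g2 : (P.l : ℝ) ≤ P.m := by exact_mod_cast g1
    linarith
  have hwu : w ≤ P.H / UU := by
    rw [le_div_iff₀ hU]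
    cases hc : Nat.ble (nat_lit 1125899906842624) P.H with
    | true =>
      have g1 : 1125899906842624 ≤ P.H := Nat.le_of_ble_eq_true hc
      have g2 : (1125899906842624 : ℝ) ≤ P.H := by exact_mod_cast g1
      have g3 : (1125899906842624 : ℝ) = 4 * UU := by unfold UU; norm_num
      rw [g3] at g2
      nlinarith
    | false =>
      rw [hc] at b3
      have g1 : P.c + P.c - P.m ≤ P.H := Nat.le_of_ble_eq_true b3
      have g2 : ((P.c + P.c - P.m : ℕ) : ℝ) ≤ P.H := by exact_mod_cast g1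
      rw [Nat.cast_sub hmc'] at g2
      push_cast at g2
      linarith
  have hal : P.al ≤ 281474976710656 := Nat.le_of_ble_eq_true b6
  have q0 := sqW_ok hal b8
  have q1 := sqW_ok hal b9
  have hc := sqrt_chord (by positivity) hwl hwu q0 q1
  have hpos : P.be * 281474976710656 < P.al * P.l := Nat.le_of_ble_eq_true b7
  have hch : 0 < (P.al / UU : ℝ) * w - P.be / UU := by
    have g1 : ((P.be * 281474976710656 : ℕ) : ℝ) < ((P.al * P.l : ℕ) : ℝ) := by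
      exact_mod_cast hpos
    rw [Nat.cast_mul, Nat.cast_mul, UU_nat] at g1
    have g2 : (P.al / UU : ℝ) * (P.l / UU) ≤ P.al / UU * w :=
      mul_le_mul_of_nonneg_left hwl (by positivity)
    have g3 : (P.be / UU : ℝ) < P.al / UU * (P.l / UU) := by
      have : (P.al / UU : ℝ) * (P.l / UU) = (P.al * P.l) / UU ^ 2 := by field_simp
      rw [this, div_lt_div_iff₀ hU (by positivity)]
      nlinarith
    linarith
  exact ⟨hch, by linarith⟩

/-! ### the record -/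

/-- THE FACTS ABOUT A STAR -/
structure PsF (P : PtE) (mx : ℕ) (w : ℝ) : Prop where
  b : InB P w
  n : psN P = true
  t : 0 ≤ rn w (mx + 1) - (P.t0 / UU : ℝ) * ((P.al / UU : ℝ) * w - P.be / UU)

/-- THE FACTS ABOUT A LETTER `k ≥ 3` -/
structure PbF (P : PtE) (nx : ℕ) (hz : Bool) (w : ℝ) : Prop where
  b : InB P w
  n : ptN P = true
  t : 0 ≤ rn w (nx + 1) - (P.t0 / UU : ℝ) * ((P.al / UU : ℝ) - P.be / UU * w)
  h : hz = false → 0 ≤ h1 w (nx + 1) - (P.H / UU : ℝ)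
  z : hz = true → P.H = 0

/-- **THE RECORD PtK FROM THE FACTS ABOUT THE LETTERS** -/
theorem PtK_fct {γ δ ε : Type} {Cd : CovD γ δ ε}
    {v : Fin 3 → ℂ} {tb : ℕ → LE} {bc : ℕ → ℕ → Prop} (hp : 3 ≤ Cd.p)
    (hnx : ∀ g : Sy, SyOk Cd.p g → 1 ≤ nxC Cd.nx (Pool.Agent.Helper6.MONO.W2.TY.sc g))
    (h1' : ∀ a : Bool, ‖nc (phi Cd.p) v a 1‖ ≤ 2)
    (h2 : ∀ g : Sy, SyOk Cd.p g → g.2 % 2 = 1 → 3 ≤ g.2 → 2 ≤ ‖nc (phi Cd.p) v g.1 g.2‖)
    (hτ : ∀ g : Sy, SyOk Cd.p g → g.2 % 2 = 1 →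
      (tb (Pool.Agent.Helper6.MONO.W2.TY.sc g)).tau.getD 0 0 ≤
        (tb (Pool.Agent.Helper6.MONO.W2.TY.sc g)).e.t0 ∧
      281474976710656 ≤ (tb (Pool.Agent.Helper6.MONO.W2.TY.sc g)).tau.getD
        (nPc Cd.le (Pool.Agent.Helper6.MONO.W2.TY.sc g)) 0)
    (hσ : ∀ g : Sy, SyOk Cd.p g → g.2 % 2 = 1 →
      (tb (Pool.Agent.Helper6.MONO.W2.TY.sc g)).tau.getD
        (oQc Cd.le (Pool.Agent.Helper6.MONO.W2.TY.sc g)) 0 ≤
        (tb (Pool.Agent.Helper6.MONO.W2.TY.sc g)).e.t0 ∧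
      281474976710656 ≤ (tb (Pool.Agent.Helper6.MONO.W2.TY.sc g)).tau.getD
        (oQc Cd.le (Pool.Agent.Helper6.MONO.W2.TY.sc g) +
          nQc Cd.le (Pool.Agent.Helper6.MONO.W2.TY.sc g)) 0)
    (hs : ∀ a : Bool, PsF (tb (Pool.Agent.Helper6.MONO.W2.TY.sc (a, 1))).e
      (mxC Cd.mx (Pool.Agent.Helper6.MONO.W2.TY.sc (a, 1))) (nW (phi Cd.p) v (a, 1)))
    (hg : ∀ g : Sy, SyOk Cd.p g → g.2 % 2 = 1 → 3 ≤ g.2 →
      PbF (tb (Pool.Agent.Helper6.MONO.W2.TY.sc g)).e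
        (nxC Cd.nx (Pool.Agent.Helper6.MONO.W2.TY.sc g))
        (hzC Cd.nx (Pool.Agent.Helper6.MONO.W2.TY.sc g)) (nW (phi Cd.p) v g))
    (hb : Cd.gb = true → ∀ m, Cd.nB < m → ∃ i < Cd.NB, bc i m) :
    PtK Cd v (RTK tb (nW (phi Cd.p) v) bc) := by
  have hU := UU_pos
  have big : ∀ m : ℕ, 281474976710656 ≤ m → (1 : ℝ) ≤ (m : ℝ) / UU := by
    intro m hm
    rw [le_div_iff₀ hU, one_mul, ← UU_nat]
    exact_mod_cast hm
  have ok1 : ∀ a : Bool, SyOk Cd.p (a, 1) := fun a =>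
    ⟨le_rfl, by show 1 ≤ Cd.p; omega, fun _ => by show 1 < Cd.p; omega⟩
  have eW : ∀ g : Sy, nW (phi Cd.p) v g = ‖nc (phi Cd.p) v g.1 g.2‖ ^ 2 := fun g => rfl
  have four : ∀ g : Sy, SyOk Cd.p g → g.2 % 2 = 1 → 3 ≤ g.2 → 4 ≤ nW (phi Cd.p) v g := by
    intro g hg ho hk
    have h3 := h2 g hg ho hk
    rw [eW]
    nlinarith
  have four' : ∀ a : Bool, nW (phi Cd.p) v (a, 1) ≤ 4 := by
    intro a
    rw [eW]
    have := h1' a
    have h5 := norm_nonneg (nc (phi Cd.p) v a 1)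
    nlinarith
  have sta := fun a : Bool => ps_n (hs a).b (four' a) (hs a).n
  have fct := fun (g : Sy) (h : SyOk Cd.p g) (ho : g.2 % 2 = 1) (hk : 3 ≤ g.2) =>
    pt_n (hg g h ho hk).b (four g h ho hk) (hg g h ho hk).n
  have ech : ∀ g : Sy, 3 ≤ g.2 → (RTK tb (nW (phi Cd.p) v) bc).ch g =
      ((tb (Pool.Agent.Helper6.MONO.W2.TY.sc g)).e.al / UU : ℝ) -
        (tb (Pool.Agent.Helper6.MONO.W2.TY.sc g)).e.be / UU * nW (phi Cd.p) v g := by
    intro g hk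
    exact if_neg (by omega)
  have ech1 : ∀ a : Bool, (RTK tb (nW (phi Cd.p) v) bc).ch (a, 1) =
      ((tb (Pool.Agent.Helper6.MONO.W2.TY.sc (a, 1))).e.al / UU : ℝ) *
        nW (phi Cd.p) v (a, 1) - (tb (Pool.Agent.Helper6.MONO.W2.TY.sc (a, 1))).e.be / UU := by
    intro a
    unfold RTK
    simp only [if_true]
  -- a break point below the first one, a break point above the end
  have a1 : ∀ (a : Bool) (j : ℕ), (tb (Pool.Agent.Helper6.MONO.W2.TY.sc (a, 1))).tau.getD j 0 ≤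
      (tb (Pool.Agent.Helper6.MONO.W2.TY.sc (a, 1))).e.t0 →
      (RTK tb (nW (phi Cd.p) v) bc).τ (a, 1) j * (RTK tb (nW (phi Cd.p) v) bc).ch (a, 1) ≤
        rn (nW (phi Cd.p) v (a, 1)) (mxC Cd.mx (Pool.Agent.Helper6.MONO.W2.TY.sc (a, 1)) + 1) := by
    intro a j hj
    rw [ech1]
    refine le_trans (mul_le_mul_of_nonneg_right ?_ (sta a).1.le)
      (sub_nonneg.1 (hs a).t)
    show (((tb (Pool.Agent.Helper6.MONO.W2.TY.sc (a, 1))).tau.getD j 0 : ℕ) : ℝ) / UU ≤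
      ((tb (Pool.Agent.Helper6.MONO.W2.TY.sc (a, 1))).e.t0 : ℝ) / UU
    exact div_le_div_of_nonneg_right (by exact_mod_cast hj) hU.le
  have a2 : ∀ (a : Bool) (j : ℕ), 281474976710656 ≤
      (tb (Pool.Agent.Helper6.MONO.W2.TY.sc (a, 1))).tau.getD j 0 →
      nW (phi Cd.p) v (a, 1) - ‖nc (phi Cd.p) v a 1‖ ≤
        (RTK tb (nW (phi Cd.p) v) bc).τ (a, 1) j * (RTK tb (nW (phi Cd.p) v) bc).ch (a, 1) := by
    intro a j hj
    rw [ech1]
    have h3 := (sta a).2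
    have e3 : Real.sqrt (nW (phi Cd.p) v (a, 1)) = ‖nc (phi Cd.p) v a 1‖ := by
      rw [eW]
      exact Real.sqrt_sq (norm_nonneg _)
    rw [e3] at h3
    refine h3.trans ?_
    have h5 := big _ hj
    have h6 := mul_le_mul_of_nonneg_right h5 (sta a).1.le
    rw [one_mul] at h6
    exact h6
  have a3 : ∀ (g : Sy) (hg' : SyOk Cd.p g) (ho : g.2 % 2 = 1) (hk : 3 ≤ g.2) (j : ℕ),
      (tb (Pool.Agent.Helper6.MONO.W2.TY.sc g)).tau.getD j 0 ≤
        (tb (Pool.Agent.Helper6.MONO.W2.TY.sc g)).e.t0 →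
      (RTK tb (nW (phi Cd.p) v) bc).τ g j * (RTK tb (nW (phi Cd.p) v) bc).ch g ≤
        rn (nW (phi Cd.p) v g) (nxC Cd.nx (Pool.Agent.Helper6.MONO.W2.TY.sc g) + 1) := by
    intro g hg' ho hk j hj
    rw [ech g hk]
    obtain ⟨f1, _, _⟩ := fct g hg' ho hk
    refine le_trans (mul_le_mul_of_nonneg_right ?_ f1.le) (sub_nonneg.1 (hg g hg' ho hk).t)
    show (((tb (Pool.Agent.Helper6.MONO.W2.TY.sc g)).tau.getD j 0 : ℕ) : ℝ) / UU ≤
      ((tb (Pool.Agent.Helper6.MONO.W2.TY.sc g)).e.t0 : ℝ) / UU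
    exact div_le_div_of_nonneg_right (by exact_mod_cast hj) hU.le
  refine ⟨fun a => ?_, fun a => ⟨a1 a _ (hτ (a, 1) (ok1 a) rfl).1, a2 a _ (hτ (a, 1) (ok1 a) rfl).2⟩,
    fun a => ⟨a1 a _ (hσ (a, 1) (ok1 a) rfl).1, a2 a _ (hσ (a, 1) (ok1 a) rfl).2⟩,
    fun g hg' ho hk => ?_,
    fun g hg' ho hk => ⟨a3 g hg' ho hk _ (hτ g hg' ho).1, big _ (hτ g hg' ho).2⟩,
    fun g hg' ho hk => ⟨a3 g hg' ho hk _ (hσ g hg' ho).1, big _ (hσ g hg' ho).2⟩,
    fun g hg' ho hk => ?_, fun g hg' ho hk hz => ?_, rr_third, hb⟩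
  · rw [ech1]
    exact (sta a).1
  · rw [ech g hk]
    obtain ⟨f1, f2, _⟩ := fct g hg' ho hk
    exact ⟨f1, f2⟩
  · refine ⟨(fct g hg' ho hk).2.2, ?_⟩
    cases hzg : hzC Cd.nx (Pool.Agent.Helper6.MONO.W2.TY.sc g) with
    | true =>
      show (((tb (Pool.Agent.Helper6.MONO.W2.TY.sc g)).e.H : ℕ) : ℝ) / UU ≤ _
      rw [(hg g hg' ho hk).z hzg, Nat.cast_zero, zero_div]
      exact Pool.Agent.Helper6.MONO.W2.h1_nn (four g hg' ho hk) (Nat.succ_le_succ (hnx g hg'))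
    | false => exact sub_nonneg.1 ((hg g hg' ho hk).h hzg)
  · show (((tb (Pool.Agent.Helper6.MONO.W2.TY.sc g)).e.H : ℕ) : ℝ) / UU = 0
    rw [(hg g hg' ho hk).z hz, Nat.cast_zero, zero_div]

end Pool.Agent.Helper51.TM
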